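import Mathlib

set_option autoImplicit false

namespace Pool.Agent.Results.MP_3a9d0e_gt.Heis

open Set Filter Topology TopologicalSpace

/-- Every closed zero-dimensional metrizable subgroup is discrete. -/
def Zm (G : Type) [Group G] [TopologicalSpace G] : Prop :=
  ∀ H : Subgroup G, IsClosed (H : Set G) → IsTopologicalBasis {U : Set H | IsClopen U} →
    MetrizableSpace H → DiscreteTopology H

def hm (x y z : ℝ) : GL (Fin 3) ℝ :=
  ⟨!![1, x, z; 0, 1, y; 0, 0, 1], !![1, -x, x * y - z; 0, 1, -y; 0, 0, 1],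
    by ext i j; fin_cases i <;> fin_cases j <;> simp [Matrix.mul_apply, Fin.sum_univ_three]; ring,
    by ext i j; fin_cases i <;> fin_cases j <;> simp [Matrix.mul_apply, Fin.sum_univ_three]; ring⟩

theorem hm_mul (x y z x' y' z' : ℝ) :
    hm x y z * hm x' y' z' = hm (x + x') (y + y') (z + z' + x * y') := by
  ext i j
  fin_cases i <;> fin_cases j <;> simp [hm, Matrix.mul_apply, Fin.sum_univ_three] <;> ring

theorem hm_zero : hm 0 0 0 = 1 := by
  ext i j
  fin_cases i <;> fin_cases j <;> simp [hm]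

theorem hm_inv (x y z : ℝ) : (hm x y z)⁻¹ = hm (-x) (-y) (x * y - z) := by
  rw [inv_eq_iff_mul_eq_one, hm_mul, ← hm_zero]
  congr 1 <;> ring

theorem hm_cont : Continuous fun p : ℝ × ℝ × ℝ => hm p.1 p.2.1 p.2.2 := by
  refine Units.continuous_iff.mpr ⟨?_, ?_⟩
  · refine continuous_matrix fun i j => ?_
    fin_cases i <;> fin_cases j <;> simp [hm] <;> fun_prop
  · refine continuous_matrix fun i j => ?_
    fin_cases i <;> fin_cases j <;> simp [hm_inv] <;> simp [hm] <;> fun_prop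

def co (g : GL (Fin 3) ℝ) : ℝ × ℝ × ℝ := (g.1 0 1, g.1 1 2, g.1 0 2)

theorem co_hm (x y z : ℝ) : co (hm x y z) = (x, y, z) := by simp [co, hm]

theorem co_cont : Continuous co := by
  have : Continuous fun g : GL (Fin 3) ℝ => g.1 := Units.continuous_val
  unfold co
  fun_prop

def GG (a b : ℝ) : Subgroup (GL (Fin 3) ℝ) where
  carrier := {g | ∃ (m n k : ℤ) (z : ℝ), g = hm (m + k * a) (n + k * b) z}
  one_mem' := ⟨0, 0, 0, 0, by simp [hm_zero]⟩
  mul_mem' := by
    rintro _ _ ⟨m, n, k, z, rfl⟩ ⟨m', n', k', z', rfl⟩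
    refine ⟨m + m', n + n', k + k', z + z' + (m + k * a) * (n' + k' * b), ?_⟩
    rw [hm_mul]
    congr 1 <;> push_cast <;> ring
  inv_mem' := by
    rintro _ ⟨m, n, k, z, rfl⟩
    refine ⟨-m, -n, -k, (m + k * a) * (n + k * b) - z, ?_⟩
    rw [hm_inv]
    congr 1 <;> push_cast <;> ring

theorem exists_ab : ∃ a b : ℝ, ∀ p q r : ℤ, (p : ℝ) + q * a + r * b = 0 → p = 0 ∧ q = 0 ∧ r = 0 := by
  have ht : Transcendental ℤ (liouvilleNumber 2) := transcendental_liouvilleNumber (le_refl 2)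
  refine ⟨liouvilleNumber 2, liouvilleNumber 2 ^ 2, fun p q r h => ?_⟩
  have := transcendental_iff.mp ht (Polynomial.C p + Polynomial.C q * Polynomial.X +
    Polynomial.C r * Polynomial.X ^ 2) (by simpa using h)
  have h0 := congrArg (fun P => Polynomial.coeff P 0) this
  have h1 := congrArg (fun P => Polynomial.coeff P 1) this
  have h2 := congrArg (fun P => Polynomial.coeff P 2) this
  simp only [Polynomial.coeff_add, Polynomial.coeff_C_mul, Polynomial.coeff_X_pow, Polynomial.coeff_X,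
    Polynomial.coeff_C, Polynomial.coeff_zero] at h0 h1 h2
  norm_num at h0 h1 h2
  exact ⟨h0, h1, h2⟩

theorem not_closed (a b : ℝ) (hab : ∀ p q r : ℤ, (p : ℝ) + q * a + r * b = 0 → p = 0 ∧ q = 0 ∧ r = 0) :
    ¬ IsClosed (GG a b : Set (GL (Fin 3) ℝ)) := by
  intro hc
  let A : Set (ℝ × ℝ) := range fun v : ℤ × ℤ × ℤ => ((v.1 : ℝ) + v.2.2 * a, (v.2.1 : ℝ) + v.2.2 * b)
  have hA : IsClosed A := by
    have : A = (fun p : ℝ × ℝ => hm p.1 p.2 0) ⁻¹' (GG a b) := by
      ext p
      constructor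
      · rintro ⟨v, rfl⟩
        exact ⟨v.1, v.2.1, v.2.2, 0, rfl⟩
      · rintro ⟨m, n, k, z, h⟩
        have := congrArg co h
        rw [co_hm, co_hm] at this
        simp only [Prod.mk.injEq] at this
        exact ⟨(m, n, k), Prod.ext this.1.symm this.2.1.symm⟩
    rw [this]
    exact hc.preimage (hm_cont.comp (f := fun p : ℝ × ℝ => (p.1, p.2, (0 : ℝ))) (by fun_prop))
  haveI : CompleteSpace A := hA.completeSpace_coe
  haveI : Countable A := (countable_range _).to_subtype
  haveI : Nonempty A := ⟨⟨_, (0, 0, 0), rfl⟩⟩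
  obtain ⟨p, q, hq⟩ := nonempty_interior_of_iUnion_of_closed (f := fun p : A => ({p} : Set A))
    (fun _ => isClosed_singleton) (by ext; simp)
  have hpq : q = p := mem_singleton_iff.mp (interior_subset hq)
  subst hpq
  obtain ⟨ε, hε, hball⟩ := Metric.mem_nhds_iff.mp (mem_interior_iff_mem_nhds.mp hq)
  let u : ℕ → ℝ × ℝ := fun k => (Int.fract (k * a), Int.fract (k * b))
  obtain ⟨l, -, φ, hφ, hl⟩ := (isCompact_Icc (a := ((0, 0) : ℝ × ℝ)) (b := (1, 1))).tendsto_subseq
    (x := u) (fun k => ⟨⟨Int.fract_nonneg _, Int.fract_nonneg _⟩,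
      ⟨(Int.fract_lt_one _).le, (Int.fract_lt_one _).le⟩⟩)
  obtain ⟨N, hN⟩ := Metric.cauchySeq_iff'.mp hl.cauchySeq ε hε
  have h1 := hN (N + 1) (Nat.le_succ N)
  obtain ⟨_, v, rfl⟩ := q
  let w : ℤ × ℤ × ℤ := (v.1 - ⌊(φ (N + 1) : ℝ) * a⌋ + ⌊(φ N : ℝ) * a⌋,
    v.2.1 - ⌊(φ (N + 1) : ℝ) * b⌋ + ⌊(φ N : ℝ) * b⌋, v.2.2 + φ (N + 1) - φ N)
  have h2 := hball (a := ⟨_, w, rfl⟩) (by
    rw [Metric.mem_ball, Subtype.dist_eq]
    refine lt_of_eq_of_lt ?_ h1
    simp only [Function.comp, u, Prod.dist_eq, Real.dist_eq, w, Int.fract]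
    push_cast
    congr 2 <;> ring)
  have h3 := congrArg (fun p : A => p.1.1) (mem_singleton_iff.mp h2)
  simp only at h3
  have h4 := (hab (w.1 - v.1) (w.2.2 - v.2.2) 0 (by push_cast; linarith)).2.1
  have h5 : φ N < φ (N + 1) := hφ (Nat.lt_succ_self N)
  simp only [w] at h4
  omega

theorem zm (a b : ℝ) (hab : ∀ p q r : ℤ, (p : ℝ) + q * a + r * b = 0 → p = 0 ∧ q = 0 ∧ r = 0) :
    Zm (GG a b) := by
  intro H hH hz _
  let c : ℝ → GG a b := fun z => ⟨hm 0 0 z, 0, 0, 0, z, by simp⟩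
  have hc : Continuous c :=
    (hm_cont.comp (f := fun z : ℝ => ((0 : ℝ), (0 : ℝ), z)) (by fun_prop)).subtype_mk _
  let D : AddSubgroup ℝ :=
    { carrier := {z | c z ∈ H}
      zero_mem' := by
        have : c 0 = 1 := Subtype.ext hm_zero
        show c 0 ∈ H
        rw [this]; exact H.one_mem
      add_mem' := fun {z w} h1 h2 => by
        have : c (z + w) = c z * c w := Subtype.ext (by simp [c, hm_mul])
        show c (z + w) ∈ H
        rw [this]; exact H.mul_mem h1 h2
      neg_mem' := fun {z} h1 => by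
        have : c (-z) = (c z)⁻¹ := Subtype.ext (by simp [c, hm_inv])
        show c (-z) ∈ H
        rw [this]; exact H.inv_mem h1 }
  have hD : IsClosed (D : Set ℝ) := hH.preimage hc
  obtain ⟨δ, hδ0, hδ⟩ : ∃ δ : ℝ, 0 < δ ∧ ∀ z ∈ D, |z| < δ → z = 0 := by
    rcases D.dense_or_cyclic with h | ⟨d, hd⟩
    · exfalso
      have hall : ∀ z, c z ∈ H := fun z => by
        have : z ∈ (D : Set ℝ) := by rw [← hD.closure_eq]; exact h z
        exact this
      let c' : ℝ → H := fun z => ⟨c z, hall z⟩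
      have hc' : Continuous c' := hc.subtype_mk _
      have hne : c' 0 ≠ c' 1 := fun h => by
        have := congrArg (fun g : H => co g.1.1) h
        simp [c', c, co_hm] at this
      obtain ⟨U, hU, h0, h1⟩ := hz.exists_subset_of_mem_open (a := c' 0) (u := {c' 1}ᶜ) hne
        isOpen_compl_singleton
      rcases isClopen_iff.mp (IsClopen.preimage hU hc') with h | h
      · have : (0 : ℝ) ∈ c' ⁻¹' U := h0
        rw [h] at this; exact this
      · have : (1 : ℝ) ∈ c' ⁻¹' U := h ▸ mem_univ _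
        exact h1 this rfl
    · by_cases hd0 : d = 0
      · refine ⟨1, one_pos, fun z hz _ => ?_⟩
        rw [hd, hd0, AddSubgroup.mem_closure_singleton] at hz
        obtain ⟨n, rfl⟩ := hz
        simp
      · refine ⟨|d|, abs_pos.mpr hd0, fun z hz hlt => ?_⟩
        rw [hd, AddSubgroup.mem_closure_singleton] at hz
        obtain ⟨n, rfl⟩ := hz
        rw [zsmul_eq_mul, abs_mul, mul_lt_iff_lt_one_left (abs_pos.mpr hd0)] at hlt
        have : |n| < 1 := by exact_mod_cast hlt
        have : n = 0 := by rw [abs_lt] at this; omega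
        simp [this]
  obtain ⟨ε, hε0, hε⟩ : ∃ ε : ℝ, 0 < ε ∧ ∀ (m n k : ℤ) (z : ℝ)
      (h : hm (m + k * a) (n + k * b) z ∈ GG a b), (⟨_, h⟩ : GG a b) ∈ H →
      |m + k * a| < ε → |n + k * b| < ε → m = 0 ∧ n = 0 ∧ k = 0 := by
    by_cases hex : ∃ (m n k : ℤ) (z : ℝ) (h : hm (m + k * a) (n + k * b) z ∈ GG a b),
        (⟨_, h⟩ : GG a b) ∈ H ∧ ¬ (m = 0 ∧ n = 0 ∧ k = 0)
    swap
    · push Not at hex
      exact ⟨1, one_pos, fun m n k z h h1 _ _ => hex m n k z h h1⟩
    obtain ⟨m0, n0, k0, z0, h0, hH0, hne⟩ := hex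
    set x0 : ℝ := m0 + k0 * a with hx0
    set y0 : ℝ := n0 + k0 * b with hy0
    have hS : 0 < |x0| + |y0| := by
      by_contra hle
      have e1 : x0 = 0 := abs_eq_zero.mp (by linarith [abs_nonneg x0, abs_nonneg y0])
      have e2 : y0 = 0 := abs_eq_zero.mp (by linarith [abs_nonneg x0, abs_nonneg y0])
      have f1 := hab m0 k0 0 (by push_cast; linarith)
      have f2 := hab n0 0 k0 (by push_cast; linarith)
      exact hne ⟨f1.1, f2.1, f1.2.1⟩
    set M : ℝ := |(m0 : ℝ)| + |(n0 : ℝ)| + |(k0 : ℝ)| + 1 with hM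
    have hM0 : 0 < M := by positivity
    refine ⟨min (δ / (|x0| + |y0|)) ((|x0| + |y0|) / (2 * M)), by positivity,
      fun m n k z h hH1 e1 e2 => ?_⟩
    set x : ℝ := m + k * a with hx
    set y : ℝ := n + k * b with hy
    have hdet : x0 * y - x * y0 ∈ D := by
      have := H.mul_mem (H.mul_mem (H.mul_mem hH0 hH1) (H.inv_mem hH0)) (H.inv_mem hH1)
      show c _ ∈ H
      convert this using 1
      apply Subtype.ext
      simp only [c, Subgroup.coe_mul, InvMemClass.coe_inv, hm_inv, hm_mul]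
      congr 1 <;> ring
    have e1a := (lt_min_iff.mp e1).1
    have e2a := (lt_min_iff.mp e2).1
    have e1b := (lt_min_iff.mp e1).2
    have e2b := (lt_min_iff.mp e2).2
    have hdet0 : x0 * y - x * y0 = 0 := by
      refine hδ _ hdet ?_
      have t1 : |x0 * y - x * y0| ≤ |x0| * |y| + |x| * |y0| := by
        rw [← abs_mul, ← abs_mul]; exact abs_sub _ _
      have t2 : max |x| |y| < δ / (|x0| + |y0|) := max_lt e1a e2a
      rw [lt_div_iff₀ hS] at t2
      nlinarith [le_max_left |x| |y|, le_max_right |x| |y|, abs_nonneg x0, abs_nonneg y0]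
    obtain ⟨g1, g2, g3⟩ := hab (m0 * n - m * n0) (k0 * n - k * n0) (m0 * k - m * k0)
      (by push_cast; rw [← hdet0, hx0, hy0, hx, hy]; ring)
    have key : ∀ s t : ℤ, |(t : ℝ)| ≤ M → t * m = s * m0 → t * n = s * n0 → t * k = s * k0 →
        s = 0 := by
      intro s t ht k1 k2 k3
      have k1' : (t : ℝ) * m = s * m0 := by exact_mod_cast k1
      have k2' : (t : ℝ) * n = s * n0 := by exact_mod_cast k2
      have k3' : (t : ℝ) * k = s * k0 := by exact_mod_cast k3
      have l1 : (t : ℝ) * x = s * x0 := by rw [hx, hx0]; linear_combination k1' + a * k3'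
      have l2 : (t : ℝ) * y = s * y0 := by rw [hy, hy0]; linear_combination k2' + b * k3'
      have l3 : |(s : ℝ)| * (|x0| + |y0|) = |(t : ℝ)| * (|x| + |y|) := by
        rw [mul_add, mul_add, ← abs_mul, ← abs_mul, ← abs_mul, ← abs_mul, l1, l2]
      rw [lt_div_iff₀ (by positivity)] at e1b e2b
      have l4 : |(s : ℝ)| * (|x0| + |y0|) < 1 * (|x0| + |y0|) := by
        rw [l3]
        nlinarith [abs_nonneg x, abs_nonneg y, abs_nonneg (t : ℝ)]
      have l5 : |s| < 1 := by exact_mod_cast lt_of_mul_lt_mul_right l4 hS.le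
      rw [abs_lt] at l5
      omega
    have a1 := abs_nonneg (m0 : ℝ)
    have a2 := abs_nonneg (n0 : ℝ)
    have a3 := abs_nonneg (k0 : ℝ)
    exact ⟨key m m0 (by linarith) (by ring) (by linarith) (by linarith),
      key n n0 (by linarith) (by linarith) (by ring) (by linarith),
      key k k0 (by linarith) (by linarith) (by linarith) (by ring)⟩
  refine discreteTopology_of_isOpen_singleton_one ?_
  have hco : Continuous fun g : H => co g.1.1 := co_cont.comp (by fun_prop)
  have : ({1} : Set H) = (fun g : H => co g.1.1) ⁻¹' {p | |p.1| < ε ∧ |p.2.1| < ε ∧ |p.2.2| < δ} := by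
    ext g
    constructor
    · rintro rfl
      have : co 1 = (0, 0, 0) := by
        rw [← co_hm, hm_zero]
      simp [this, hε0, hδ0]
    · obtain ⟨⟨_, m, n, k, z, rfl⟩, hg⟩ := g
      simp only [mem_preimage, co_hm, mem_setOf_eq, mem_singleton_iff]
      rintro ⟨e1, e2, e3⟩
      obtain ⟨rfl, rfl, rfl⟩ := hε m n k z _ hg e1 e2
      have hzD : z ∈ D := by
        show c z ∈ H
        convert hg using 2
        simp [c]
      have := hδ z hzD e3
      subst this
      apply Subtype.ext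
      apply Subtype.ext
      simp [hm_zero]
  rw [this]
  refine IsOpen.preimage hco ?_
  have o1 : IsOpen {p : ℝ × ℝ × ℝ | |p.1| < ε} := isOpen_lt (by fun_prop) continuous_const
  have o2 : IsOpen {p : ℝ × ℝ × ℝ | |p.2.1| < ε} := isOpen_lt (by fun_prop) continuous_const
  have o3 : IsOpen {p : ℝ × ℝ × ℝ | |p.2.2| < δ} := isOpen_lt (by fun_prop) continuous_const
  exact o1.inter (o2.inter o3)

theorem result : ∃ G : Subgroup (GL (Fin 3) ℝ), Zm G ∧ ¬ IsClosed (G : Set (GL (Fin 3) ℝ)) := by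
  obtain ⟨a, b, hab⟩ := exists_ab
  exact ⟨GG a b, zm a b hab, not_closed a b hab⟩

end Pool.Agent.Results.MP_3a9d0e_gt.Heis
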